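import Mathlib

/-!
# Generic sets of centres for a free Borel action of ℤ² on a Polish space
-/

namespace Pool.Agent.helper4.LCL

open TopologicalSpace Topology Set

/-- For a finite set `F` of nonzero elements there is a countable Borel cover by sets which are
disjoint from their translates by the elements of `F`. -/
lemma exists_cover {X : Type*} [TopologicalSpace X] [PolishSpace X] [MeasurableSpace X]
    [BorelSpace X] [AddAction (ℤ × ℤ) X]
    (hact : ∀ g : ℤ × ℤ, Measurable (fun x : X => g +ᵥ x))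
    (hfree : ∀ g : ℤ × ℤ, ∀ x : X, g +ᵥ x = x → g = 0)
    (F : Finset (ℤ × ℤ)) (hF : (0 : ℤ × ℤ) ∉ F) :
    ∃ W : countableBasis X → Set X, (∀ n, MeasurableSet (W n)) ∧ (∀ x, ∃ n, x ∈ W n) ∧
      ∀ n, ∀ x ∈ W n, ∀ g ∈ F, g +ᵥ x ∉ W n := by
  refine ⟨fun n => n.1 ∩ ⋂ g ∈ F, (fun x : X => g +ᵥ x) ⁻¹' n.1ᶜ, ?_, ?_, ?_⟩
  · intro n
    refine (isOpen_of_mem_countableBasis n.2).measurableSet.inter ?_
    exact F.measurableSet_biInter fun g _ =>
      hact g (isOpen_of_mem_countableBasis n.2).measurableSet.compl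
  · intro x
    have hx : x ∈ ((fun g : ℤ × ℤ => g +ᵥ x) '' (F : Set (ℤ × ℤ)))ᶜ := by
      rintro ⟨g, hg, hgx⟩
      exact hF (hfree g x hgx ▸ hg)
    have hopen : IsOpen ((fun g : ℤ × ℤ => g +ᵥ x) '' (F : Set (ℤ × ℤ)))ᶜ :=
      ((F.finite_toSet.image _).isClosed).isOpen_compl
    obtain ⟨u, hu, hxu, hsub⟩ := (isBasis_countableBasis X).exists_subset_of_mem_open hx hopen
    refine ⟨⟨u, hu⟩, hxu, ?_⟩
    simp only [mem_iInter, mem_preimage, mem_compl_iff]
    intro g hg hgu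
    exact hsub hgu ⟨g, hg, rfl⟩
  · rintro n x ⟨_, hx⟩ g hg ⟨hgn, _⟩
    simp only [mem_iInter, mem_preimage, mem_compl_iff] at hx
    exact hx g hg hgn

theorem exists_centres {X : Type*} [TopologicalSpace X] [PolishSpace X] [MeasurableSpace X]
    [BorelSpace X] [AddAction (ℤ × ℤ) X]
    (hact : ∀ g : ℤ × ℤ, Measurable (fun x : X => g +ᵥ x))
    (hfree : ∀ g : ℤ × ℤ, ∀ x : X, g +ᵥ x = x → g = 0)
    (F : ℕ → Finset (ℤ × ℤ)) (hF : ∀ j, (0 : ℤ × ℤ) ∉ F j) :
    ∃ V : ℕ → Set X, (∀ j, MeasurableSet (V j)) ∧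
      (∀ j, ∀ x ∈ V j, ∀ g ∈ F j, g +ᵥ x ∉ V j) ∧
      {x : X | ∀ g : ℤ × ℤ, ∀ N, ∃ j ≥ N, g +ᵥ x ∈ V j} ∈ residual X := by
  classical
  rcases isEmpty_or_nonempty X with hX | hX
  · refine ⟨fun _ => ∅, fun _ => MeasurableSet.empty, fun j x hx => absurd hx (by simp), ?_⟩
    refine Filter.mem_of_superset Filter.univ_mem ?_
    intro x _
    exact hX.elim x
  have hcount : Countable (countableBasis X) := (countable_countableBasis X).to_subtype
  have hne : Nonempty (countableBasis X) := by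
    obtain ⟨x⟩ := hX
    obtain ⟨u, hu, -, -⟩ := (isBasis_countableBasis X).exists_subset_of_mem_open
      (mem_univ x) isOpen_univ
    exact ⟨⟨u, hu⟩⟩
  have hbaire : BaireSpace X := inferInstance
  obtain ⟨h, hh⟩ := exists_surjective_nat ((ℤ × ℤ) × countableBasis X)
  choose W hWm hWc hWF using fun j => exists_cover hact hfree (F j) (hF j)
  -- the pair treated at stage `j`
  set pr : ℕ → (ℤ × ℤ) × countableBasis X := fun j => h (Nat.unpair j).1 with hpr
  have hinf : ∀ p : (ℤ × ℤ) × countableBasis X, ∀ N : ℕ, ∃ j ≥ N, pr j = p := by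
    intro p N
    obtain ⟨i, hi⟩ := hh p
    exact ⟨Nat.pair i N, Nat.right_le_pair i N, by simp [hpr, hi]⟩
  have hstep : ∀ j, ∃ n, ¬ IsMeagre (((pr j).2 : Set X) ∩
      (fun x : X => (pr j).1 +ᵥ x) ⁻¹' (W j n)) := by
    intro j
    by_contra hcon
    push Not at hcon
    have h1 : IsMeagre (⋃ n, ((pr j).2 : Set X) ∩ (fun x : X => (pr j).1 +ᵥ x) ⁻¹' (W j n)) :=
      isMeagre_iUnion hcon
    have h2 : ((pr j).2 : Set X) ⊆ ⋃ n, ((pr j).2 : Set X) ∩
        (fun x : X => (pr j).1 +ᵥ x) ⁻¹' (W j n) := by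
      intro x hx
      obtain ⟨n, hn⟩ := hWc j ((pr j).1 +ᵥ x)
      exact mem_iUnion.mpr ⟨n, hx, hn⟩
    exact not_isMeagre_of_isOpen (isOpen_of_mem_countableBasis (pr j).2.2)
      (nonempty_of_mem_countableBasis (pr j).2.2) (h1.mono h2)
  choose nn hnn using hstep
  refine ⟨fun j => W j (nn j), fun j => hWm j _, fun j x hx g hg => hWF j _ x hx g hg, ?_⟩
  have hall : ∀ (g : ℤ × ℤ) (N : ℕ), (⋃ j ∈ {j | N ≤ j}, (fun x : X => g +ᵥ x) ⁻¹' (W j (nn j)))
      ∈ residual X := by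
    intro g N
    set A : Set X := ⋃ j ∈ {j | N ≤ j}, (fun x : X => g +ᵥ x) ⁻¹' (W j (nn j)) with hA
    have hAm : MeasurableSet A :=
      MeasurableSet.biUnion (to_countable _) fun j _ => hact g (hWm j _)
    obtain ⟨u, hu, hAu⟩ := hAm.residualEq_isOpen
    have hud : Dense u := by
      rw [(isBasis_countableBasis X).dense_iff]
      intro o ho hone
      by_contra hemp
      rw [not_nonempty_iff_eq_empty] at hemp
      obtain ⟨j, hj, hpj⟩ := hinf (g, ⟨o, ho⟩) N
      have h1 := hnn j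
      rw [hpj] at h1
      apply h1
      have h2 : (o ∩ (fun x : X => g +ᵥ x) ⁻¹' (W j (nn j))) ⊆ o ∩ A := by
        rintro x ⟨hx1, hx2⟩
        exact ⟨hx1, mem_biUnion (show j ∈ {j | N ≤ j} from hj) hx2⟩
      refine IsMeagre.mono h2 ?_
      rw [IsMeagre]
      filter_upwards [hAu] with x hx
      intro hxo
      have h3 : x ∈ u := by
        have := hxo.2
        exact (hx ▸ this : u x)
      have : x ∈ o ∩ u := ⟨hxo.1, h3⟩
      rw [hemp] at this
      exact this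
    have hures : u ∈ residual X := residual_of_dense_open hu hud
    filter_upwards [hAu, hures] with x hx hxu
    exact (hx ▸ hxu : A x)
  have hint : (⋂ (g : ℤ × ℤ), ⋂ (N : ℕ), ⋃ j ∈ {j | N ≤ j},
      (fun x : X => g +ᵥ x) ⁻¹' (W j (nn j))) ∈ residual X := by
    rw [countable_iInter_mem]
    intro g
    rw [countable_iInter_mem]
    exact hall g
  refine Filter.mem_of_superset hint ?_
  intro x hx g N
  have := mem_iInter.mp (mem_iInter.mp hx g) N
  obtain ⟨j, hj, hxj⟩ := mem_iUnion₂.mp this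
  exact ⟨j, hj, hxj⟩

end Pool.Agent.helper4.LCL
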